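import Pool.Agent.CoordMaps.Gen6

namespace Pool.Agent.Results.MP_cd67d3_gt.SmoothGenerators

open Pool.Agent.CoordMaps

/-- The question of the problem in dimension `n`: finitely many homeomorphisms of `ℝⁿ`,
differentiable at every point, that generate a dense subgroup of the homeomorphism group. -/
def HasDifferentiableBasis (n : ℕ) : Prop :=
  ∃ S : Set (Homeo n), S.Finite ∧ (∀ h ∈ S, Differentiable ℝ h) ∧
    Dense ((Subgroup.closure S : Subgroup (Homeo n)) : Set (Homeo n))

/-- (1) For every `n ≥ 1` there are three `C^∞` diffeomorphisms `a, b, c` of `ℝⁿ` such that the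
closure of the group they generate is the closure of the set of all `C^k` diffeomorphisms of `ℝⁿ`,
for every `1 ≤ k ≤ ∞`, and also the closure of the set of all piecewise linear homeomorphisms.
(2) Consequently the question has a positive answer in every dimension in which the piecewise
linear homeomorphisms, or the `C^1` diffeomorphisms, are dense.
(3) In dimension one the answer is positive. -/
theorem result :
    (∀ n : ℕ, 1 ≤ n → ∃ a b c : Homeo n,
      (a ∈ Diffeo n ⊤ ∧ b ∈ Diffeo n ⊤ ∧ c ∈ Diffeo n ⊤) ∧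
      (∀ k : ℕ∞, 1 ≤ k → closure ((Subgroup.closure {a, b, c} : Subgroup (Homeo n)) : Set (Homeo n)) =
        closure (Diffeo n k)) ∧
      closure ((Subgroup.closure {a, b, c} : Subgroup (Homeo n)) : Set (Homeo n)) =
        closure (PiecewiseAffine n)) ∧
    (∀ n : ℕ, 1 ≤ n → (Dense (PiecewiseAffine n) ∨ Dense (Diffeo n 1)) →
      HasDifferentiableBasis n) ∧
    HasDifferentiableBasis 1 := by
  have main : ∀ n : ℕ, 1 ≤ n → ∃ a b c : Homeo n,
      (a ∈ Diffeo n ⊤ ∧ b ∈ Diffeo n ⊤ ∧ c ∈ Diffeo n ⊤) ∧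
      ∀ h : Homeo n, h ∈ closure ((Subgroup.closure {a, b, c} : Subgroup (Homeo n)) : Set (Homeo n))
        ↔ ApproxBy (GA n : Set (Homeo n)) h := by
    intro n hn
    obtain ⟨m, rfl⟩ : ∃ m, n = m + 1 := ⟨n - 1, by omega⟩
    obtain ⟨F, hF, hle⟩ := exists_gen m
    have hE : Ex m ∈ Diffeo (m + 1) ⊤ := dg_sm _ _
    have hT : Tr m ∈ Diffeo (m + 1) ⊤ := tl_sm _
    refine ⟨Ex m, Tr m, F, ⟨hE, hT, hF⟩, fun h => ?_⟩
    rw [mem_closure_iff_approxBy]
    constructor
    · intro H
      rw [approx_iff (k := ⊤) le_top]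
      refine H.of_subset_cl (G := DiffSub (m + 1) ⊤) fun g hg => le_cl _ ?_
      have : Subgroup.closure {Ex m, Tr m, F} ≤ DiffSub (m + 1) ⊤ := by
        rw [Subgroup.closure_le]
        rintro x (rfl | rfl | rfl)
        · exact hE
        · exact hT
        · exact hF
      exact this hg
    · intro H
      exact H.of_subset_cl fun g hg => hle hg
  have part1 : ∀ n : ℕ, 1 ≤ n → ∃ a b c : Homeo n,
      (a ∈ Diffeo n ⊤ ∧ b ∈ Diffeo n ⊤ ∧ c ∈ Diffeo n ⊤) ∧
      (∀ k : ℕ∞, 1 ≤ k → closure ((Subgroup.closure {a, b, c} : Subgroup (Homeo n)) : Set (Homeo n)) =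
        closure (Diffeo n k)) ∧
      closure ((Subgroup.closure {a, b, c} : Subgroup (Homeo n)) : Set (Homeo n)) =
        closure (PiecewiseAffine n) := by
    intro n hn
    obtain ⟨a, b, c, h1, h2⟩ := main n hn
    refine ⟨a, b, c, h1, fun k hk => Set.ext fun h => ?_, Set.ext fun h => ?_⟩
    · rw [h2, mem_closure_iff_approxBy, approx_iff hk]
    · rw [h2, mem_closure_iff_approxBy, approx_iff_pl]
  have smooth_diff : ∀ {n : ℕ} {h : Homeo n}, h ∈ Diffeo n ⊤ → Differentiable ℝ h :=
    fun hh => hh.1.differentiable (by simp)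
  have basis : ∀ (n : ℕ) (a b c : Homeo n), (a ∈ Diffeo n ⊤ ∧ b ∈ Diffeo n ⊤ ∧ c ∈ Diffeo n ⊤) →
      Dense ((Subgroup.closure {a, b, c} : Subgroup (Homeo n)) : Set (Homeo n)) →
      HasDifferentiableBasis n := by
    intro n a b c h1 h2
    refine ⟨{a, b, c}, by simp, ?_, h2⟩
    rintro h (rfl | rfl | rfl)
    · exact smooth_diff h1.1
    · exact smooth_diff h1.2.1
    · exact smooth_diff h1.2.2
  refine ⟨part1, fun n hn H => ?_, ?_⟩
  · obtain ⟨a, b, c, h1, h2, h3⟩ := part1 n hn
    refine basis n a b c h1 (dense_iff_closure_eq.2 ?_)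
    rcases H with H | H
    · rw [h3]; exact H.closure_eq
    · rw [h2 1 le_rfl]; exact H.closure_eq
  · obtain ⟨a, b, c, h1, h2⟩ := main 1 le_rfl
    refine basis 1 a b c h1 fun h => ?_
    rw [h2, approxBy_group]
    exact le_cl _ (Subgroup.subset_closure (typeA_one h))

end Pool.Agent.Results.MP_cd67d3_gt.SmoothGenerators
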